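import Pool.Agent.Helper97.Tns.Goals

/-! Packet PHI23: nonvanishing and degrees for the apolar pairing with powers of the
determinant. -/

open MvPolynomial
open Pool.Agent.Helper97.Tns

namespace Pool.Agent.Helper27.Tns

/-- The determinant of the generic matrix over the integers. -/
noncomputable def zD (n : ℕ) : MvPolynomial (Fin n × Fin n) ℤ :=
  (Matrix.mvPolynomialX (Fin n) (Fin n) ℤ).det

theorem map_zD (n : ℕ) : MvPolynomial.map (Int.castRingHom ℂ) (zD n) = genD n := by
  unfold zD genD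
  rw [RingHom.map_det]
  congr 1
  ext1 i j
  simp [Matrix.mvPolynomialX_apply]

theorem coeff_genD_pow (n r : ℕ) (m : (Fin n × Fin n) →₀ ℕ) :
    coeff m (genD n ^ r) = ((coeff m (zD n ^ r) : ℤ) : ℂ) := by
  rw [← map_zD, ← map_pow, coeff_map]
  rfl

theorem zD_pow_ne (n r : ℕ) : zD n ^ r ≠ 0 :=
  pow_ne_zero r (Matrix.det_mvPolynomialX_ne_zero (Fin n) ℤ)

theorem genD_pow_ne (n r : ℕ) : genD n ^ r ≠ 0 :=
  pow_ne_zero r (Matrix.det_mvPolynomialX_ne_zero (Fin n) ℂ)

/-- Packet PHI2. -/
theorem phi2 : S_PHI2 := by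
  intro n r
  have h1 : Phi n r (genD n ^ r) = ((∑ m ∈ (genD n ^ r).support,
      ((m.prod fun _ k => k.factorial : ℕ) : ℤ) * coeff m (zD n ^ r) ^ 2 : ℤ) : ℂ) := by
    have h2 : Phi n r (genD n ^ r) = ∑ m ∈ (genD n ^ r).support,
        (m.prod fun _ k => (k.factorial : ℂ)) * coeff m (genD n ^ r) *
          coeff m (genD n ^ r) := rfl
    rw [h2]
    push_cast
    refine Finset.sum_congr rfl fun m _ => ?_
    rw [coeff_genD_pow]
    ring
  rw [h1]
  have h4 : 0 < ∑ m ∈ (genD n ^ r).support,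
      ((m.prod fun _ k => k.factorial : ℕ) : ℤ) * coeff m (zD n ^ r) ^ 2 := by
    have hpos : ∀ m : (Fin n × Fin n) →₀ ℕ, 0 < (m.prod fun _ k => k.factorial : ℕ) :=
      fun m => Finset.prod_pos fun i _ => Nat.factorial_pos _
    refine Finset.sum_pos ?_ ?_
    · intro m hm
      have h5 : coeff m (zD n ^ r) ≠ 0 := by
        intro h6
        rw [mem_support_iff, coeff_genD_pow, h6] at hm
        exact hm (by simp)
      have h7 : (0 : ℤ) < ((m.prod fun _ k => k.factorial : ℕ) : ℤ) := by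
        exact_mod_cast hpos m
      positivity
    · rw [Finset.nonempty_iff_ne_empty]
      intro h
      exact genD_pow_ne n r (support_eq_empty.1 h)
  exact_mod_cast h4.ne'

theorem isHomogeneous_genD (n : ℕ) : (genD n).IsHomogeneous n := by
  unfold genD
  rw [Matrix.det_apply]
  apply IsHomogeneous.sum
  intro σ _
  have h1 : (∏ i, Matrix.mvPolynomialX (Fin n) (Fin n) ℂ (σ i) i).IsHomogeneous n := by
    have h2 := IsHomogeneous.prod (R := ℂ) Finset.univ
      (fun i => Matrix.mvPolynomialX (Fin n) (Fin n) ℂ (σ i) i) (fun _ => 1) (fun i _ => by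
        rw [Matrix.mvPolynomialX_apply]
        exact isHomogeneous_X ℂ _)
    simpa using h2
  rcases Int.units_eq_one_or (Equiv.Perm.sign σ) with h | h
  · rw [h, one_smul]; exact h1
  · rw [h]
    rw [Units.neg_smul, one_smul]
    exact h1.neg

/-- Packet PHI3. -/
theorem phi3 : S_PHI3 := by
  intro n r d F hF hne
  have h1 : ∃ m ∈ (genD n ^ r).support, coeff m F ≠ 0 := by
    by_contra hcon
    push Not at hcon
    apply hne
    show ∑ m ∈ (genD n ^ r).support,
      (m.prod fun _ k => (k.factorial : ℂ)) * coeff m (genD n ^ r) * coeff m F = 0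
    refine Finset.sum_eq_zero fun m hm => ?_
    rw [hcon m hm, mul_zero]
  obtain ⟨m, hm, hmF⟩ := h1
  have h2 := hF hmF
  have h3 := (isHomogeneous_genD n).pow r (mem_support_iff.1 hm)
  rw [← h2, ← h3]

end Pool.Agent.Helper27.Tns
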